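import Pool.Agent.Work.MP_db07cb_ag.GFin

/-! For a positive proportion of the primes `p` the number of points over the field with `p`
elements of the affine cone over a fibre power of the Weierstrass family is prime to `p`. -/

theorem Pool.Agent.Results.MP_db07cb_ag.KugaSatoOrdinary.result :
    ∀ m ∈ ({10, 14, 16, 18, 20, 24} : Finset ℕ),
      ∃ c : ℝ, 0 < c ∧ ∀ᶠ x : ℕ in Filter.atTop, c * Nat.primeCounting x ≤
        {p : ℕ | p ≤ x ∧ p.Prime ∧
          ¬ p ∣ Nat.card {v : (ZMod p × ZMod p) × (Fin m → ZMod p × ZMod p) //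
            ∀ i, (v.2 i).2 ^ 2 = (v.2 i).1 ^ 3 + v.1.1 * (v.2 i).1 + v.1.2}}.ncard :=
  Pool.Agent.Work.MP_db07cb_ag.Geo.ks_final
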