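import Pool.Agent.Work.MP_db07cb_ag.Main2

/-! For every normalised cuspidal Hecke eigenform of weight at least 3 a positive proportion
of the primes is ordinary. -/

open NumberField

theorem Pool.Agent.Results.MP_db07cb_ag.OrdinaryDensity.result :
    ∀ (N : ℕ) [NeZero N] (k : ℕ), 3 ≤ k → ∀ (K : Type) [Field K] [NumberField K] (a : ℕ → 𝓞 K)
      (f : (K →+* ℂ) → ModularForm (CongruenceSubgroup.Gamma1 N) k),
      (∀ σ m, (UpperHalfPlane.qExpansion 1 (f σ)).coeff m = σ (a m)) → a 0 = 0 → a 1 = 1 →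
      (∀ p : ℕ, p.Prime → ¬ p ∣ N → ∃ c : 𝓞 K, ∀ m,
        a (p * m) = a p * a m - if p ∣ m then c * p ^ (k - 1) * a (m / p) else 0) →
      ∃ c : ℝ, 0 < c ∧ ∀ᶠ x : ℕ in Filter.atTop, c * Nat.primeCounting x ≤
        {p : ℕ | p ≤ x ∧ p.Prime ∧
          ∃ P : Ideal (𝓞 K), P.IsPrime ∧ (p : 𝓞 K) ∈ P ∧ a p ∉ P}.ncard :=
  Pool.Agent.Work.MP_db07cb_ag.final2 Pool.Agent.Work.MP_db07cb_ag.mainDen2
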