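import Pool.Agent.Work.MP_db07cb_ag.GFin

/-! For a positive proportion of the primes `p` the number of points over the field with `p`
elements of the threefold `∑ (t_i + 1 / t_i) = 0` in a product of four projective lines is not
congruent to one modulo `p`. -/

theorem Pool.Agent.Results.MP_db07cb_ag.RigidThreefoldOrdinary.result :
    ∃ c : ℝ, 0 < c ∧ ∀ᶠ x : ℕ in Filter.atTop, c * Nat.primeCounting x ≤
      {p : ℕ | p ≤ x ∧ ∃ _ : Fact p.Prime,
        ¬ Nat.card {P : Fin 4 → Projectivization (ZMod p) (Fin 2 → ZMod p) //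
          ∑ i, ((P i).rep 0 ^ 2 + (P i).rep 1 ^ 2) *
            ∏ j ∈ Finset.univ.erase i, (P j).rep 0 * (P j).rep 1 = 0} ≡ 1 [MOD p]}.ncard :=
  Pool.Agent.Work.MP_db07cb_ag.Geo.cy_final
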